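import Mathlib

/-!
# One block with an involution

`V` is a finite vector space over `F_p`, `s` a linear involution of `V`. For `c ∈ F_p` let
`act s c x = x₊ + c x₋`, where `x = x₊ + x₋` is the decomposition with `s x = x₊ - x₋`.
-/

set_option autoImplicit false
set_option linter.unusedSectionVars false

namespace Pool.Agent.TH197.Inv

open Finset

variable {p : ℕ} [hpf : Fact p.Prime] {V : Type} [AddCommGroup V] [Module (ZMod p) V]

/-- `x₊ + c x₋` -/
def act (s : V →ₗ[ZMod p] V) (c : ZMod p) (x : V) : V :=
  (2⁻¹ : ZMod p) • (x + s x) + (c * 2⁻¹) • (x - s x)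

section

variable (s : V →ₗ[ZMod p] V) (hs : ∀ x, s (s x) = x) (hp : 5 ≤ p)

include hp in
lemma two_ne : (2 : ZMod p) ≠ 0 := by
  have h : ((2 : ℕ) : ZMod p) ≠ 0 := by
    rw [Ne, ZMod.natCast_eq_zero_iff]
    intro h
    have := Nat.le_of_dvd (by norm_num) h
    omega
  simpa using h

include hp in
lemma three_ne : (3 : ZMod p) ≠ 0 := by
  have h : ((3 : ℕ) : ZMod p) ≠ 0 := by
    rw [Ne, ZMod.natCast_eq_zero_iff]
    intro h
    have := Nat.le_of_dvd (by norm_num) h
    omega
  simpa using h

include hp in
lemma four_ne : (4 : ZMod p) ≠ 0 := by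
  have h : ((4 : ℕ) : ZMod p) ≠ 0 := by
    rw [Ne, ZMod.natCast_eq_zero_iff]
    intro h
    have := Nat.le_of_dvd (by norm_num) h
    omega
  simpa using h

include hs in
lemma s_act (c : ZMod p) (x : V) : s (act s c x) = act s (-c) x := by
  unfold act
  rw [map_add, map_smul, map_smul, map_add, map_sub, hs]
  module

include hs hp in
lemma act_sub (c : ZMod p) (x : V) : act s c x - s (act s c x) = c • (x - s x) := by
  rw [s_act s hs]
  unfold act
  have h2 := two_ne (p := p) hp
  have : (c * 2⁻¹) - (-c * 2⁻¹) = c := by field_simp; ring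
  have e : (2⁻¹ : ZMod p) • (x + s x) + (c * 2⁻¹) • (x - s x) -
      ((2⁻¹ : ZMod p) • (x + s x) + (-c * 2⁻¹) • (x - s x)) =
      ((c * 2⁻¹) - (-c * 2⁻¹)) • (x - s x) := by module
  rw [e, this]

include hs hp in
lemma act_add (c : ZMod p) (x : V) : act s c x + s (act s c x) = x + s x := by
  rw [s_act s hs]
  unfold act
  have h2 := two_ne (p := p) hp
  have : (2⁻¹ : ZMod p) + 2⁻¹ = 1 := by field_simp; ring
  have e : (2⁻¹ : ZMod p) • (x + s x) + (c * 2⁻¹) • (x - s x) +
      ((2⁻¹ : ZMod p) • (x + s x) + (-c * 2⁻¹) • (x - s x)) =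
      ((2⁻¹ : ZMod p) + 2⁻¹) • (x + s x) := by module
  rw [e, this, one_smul]

include hs hp in
lemma act_act (c d : ZMod p) (x : V) : act s c (act s d x) = act s (c * d) x := by
  have h1 : act s c (act s d x) = (2⁻¹ : ZMod p) • (act s d x + s (act s d x)) +
      (c * 2⁻¹) • (act s d x - s (act s d x)) := rfl
  rw [h1, act_add s hs hp, act_sub s hs hp]
  unfold act
  module

include hp in
lemma act_one (x : V) : act s 1 x = x := by
  unfold act
  have h2 := two_ne (p := p) hp
  have : (2⁻¹ : ZMod p) + 2⁻¹ = 1 := by field_simp; ring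
  have e : (2⁻¹ : ZMod p) • (x + s x) + (1 * 2⁻¹ : ZMod p) • (x - s x) =
      ((2⁻¹ : ZMod p) + 2⁻¹) • x := by module
  rw [e, this, one_smul]

include hp in
lemma act_neg_one (x : V) : act s (-1) x = s x := by
  unfold act
  have h2 := two_ne (p := p) hp
  have : (2⁻¹ : ZMod p) + 2⁻¹ = 1 := by field_simp; ring
  have e : (2⁻¹ : ZMod p) • (x + s x) + (-1 * 2⁻¹ : ZMod p) • (x - s x) =
      ((2⁻¹ : ZMod p) + 2⁻¹) • s x := by module
  rw [e, this, one_smul]

include hp in
lemma act_three (x : V) : act s 3 x = x + (x - s x) := by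
  unfold act
  have h2 := two_ne (p := p) hp
  have h3 : (2⁻¹ : ZMod p) + 3 * 2⁻¹ = 2 := by field_simp; ring
  have h4 : (2⁻¹ : ZMod p) - 3 * 2⁻¹ = -1 := by field_simp; ring
  have e : (2⁻¹ : ZMod p) • (x + s x) + (3 * 2⁻¹ : ZMod p) • (x - s x) =
      ((2⁻¹ : ZMod p) + 3 * 2⁻¹) • x + ((2⁻¹ : ZMod p) - 3 * 2⁻¹) • s x := by module
  rw [e, h3, h4]
  module

include hs hp in
lemma act_inj {x : V} (hx : s x ≠ x) {c d : ZMod p} (h : act s c x = act s d x) : c = d := by
  have h1 := act_sub s hs hp c x
  rw [h, act_sub s hs hp d x] at h1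
  have h2 : (c - d) • (x - s x) = 0 := by
    rw [sub_smul, h1, sub_self]
  rcases smul_eq_zero.1 h2 with h3 | h3
  · exact sub_eq_zero.1 h3
  · exact absurd (sub_eq_zero.1 h3).symm hx

include hs hp in
lemma act_fix {x : V} (hx : s x ≠ x) {c : ZMod p} (hc : c ≠ 0) : s (act s c x) ≠ act s c x := by
  intro h
  have h1 := act_sub s hs hp c x
  rw [h, sub_self] at h1
  rcases smul_eq_zero.1 h1.symm with h3 | h3
  · exact hc h3
  · exact hx (sub_eq_zero.1 h3).symm

end

section

variable [Fintype V] [DecidableEq V] (s : V →ₗ[ZMod p] V) (hs : ∀ x, s (s x) = x) (hp : 5 ≤ p)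
  (K : Subgroup (ZMod p)ˣ) (C : Finset (ZMod p)ˣ) (hCK : ∀ c, c ∈ C ↔ c ∈ K)

/-- The functions with two vanishing sums on every orbit of `C` on the points not fixed by `s` -/
def space : Submodule (ZMod p) (V → ZMod p) where
  carrier := {f | ∀ x, s x ≠ x → ∑ c ∈ C, f (act s c x) = 0 ∧
    ∑ c ∈ C, (c : ZMod p) * f (act s c x) = 0}
  add_mem' := by
    intro f g hf hg x hx
    obtain ⟨f1, f2⟩ := hf x hx
    obtain ⟨g1, g2⟩ := hg x hx
    constructor
    · simp only [Pi.add_apply]
      rw [Finset.sum_add_distrib, f1, g1, add_zero]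
    · simp only [Pi.add_apply, mul_add]
      rw [Finset.sum_add_distrib, f2, g2, add_zero]
  zero_mem' := by
    intro x _
    constructor <;> simp
  smul_mem' := by
    intro r f hf x hx
    obtain ⟨f1, f2⟩ := hf x hx
    constructor
    · simp only [Pi.smul_apply, smul_eq_mul]
      rw [← Finset.mul_sum, f1, mul_zero]
    · have : ∑ c ∈ C, (c : ZMod p) * (r • f) (act s c x) =
          r * ∑ c ∈ C, (c : ZMod p) * f (act s c x) := by
        rw [Finset.mul_sum]
        apply Finset.sum_congr rfl
        intro c _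
        simp only [Pi.smul_apply, smul_eq_mul]
        ring
      rw [this, f2, mul_zero]

include hs hp hCK in
/-- sum of a delta function over an orbit -/
lemma sum_delta {x : V} (hx : s x ≠ x) {c₀ : (ZMod p)ˣ} (hc₀ : c₀ ∈ K) (g : (ZMod p)ˣ → ZMod p) :
    ∑ c ∈ C, g c * (if act s c x = act s c₀ x then 1 else 0) = g c₀ := by
  rw [Finset.sum_eq_single c₀]
  · simp
  · intro c _ hc
    rw [if_neg, mul_zero]
    intro h
    exact hc (Units.ext (act_inj s hs hp hx h))
  · intro h
    exact absurd ((hCK c₀).2 hc₀) h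

/-- the functions `φ_a` -/
def phi (a : V) : V → ZMod p := fun x =>
  if s a = a then (if x = a then 1 else 0) else
    (if x = a then 1 else 0) - 2 * (if x = act s 3⁻¹ a then 1 else 0) +
      (if x = act s (-3⁻¹) a then 1 else 0)

include hs hp hCK in
lemma phi_mem (hK1 : (-1 : (ZMod p)ˣ) ∈ K) (hK3 : ∃ u ∈ K, (u : ZMod p) = 3) (a : V) :
    phi s a ∈ space s C := by
  obtain ⟨u, hu, hu3⟩ := hK3
  have huinv : ((u⁻¹ : (ZMod p)ˣ) : ZMod p) = 3⁻¹ := by
    rw [← hu3]
    exact Units.val_inv_eq_inv_val u
  have h3 := three_ne (p := p) hp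
  intro x hx
  -- is `a` on the orbit of `x`?
  by_cases hex : ∃ c₀ ∈ K, a = act s (c₀ : (ZMod p)ˣ) x
  · obtain ⟨c₀, hc₀, rfl⟩ := hex
    have hfix : s (act s (c₀ : ZMod p) x) ≠ act s (c₀ : ZMod p) x :=
      act_fix s hs hp hx c₀.ne_zero
    have e1 : act s 3⁻¹ (act s (c₀ : ZMod p) x) = act s ((u⁻¹ * c₀ : (ZMod p)ˣ) : ZMod p) x := by
      rw [act_act s hs hp, Units.val_mul, huinv]
    have e2 : act s (-3⁻¹) (act s (c₀ : ZMod p) x) =
        act s ((-1 * (u⁻¹ * c₀) : (ZMod p)ˣ) : ZMod p) x := by
      rw [act_act s hs hp, Units.val_mul, Units.val_mul, huinv]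
      congr 1
      simp
    have m1 : u⁻¹ * c₀ ∈ K := K.mul_mem (K.inv_mem hu) hc₀
    have m2 : -1 * (u⁻¹ * c₀) ∈ K := K.mul_mem hK1 m1
    have key : ∀ g : (ZMod p)ˣ → ZMod p, ∑ c ∈ C, g c * phi s (act s (c₀ : ZMod p) x)
        (act s c x) = g c₀ - 2 * g (u⁻¹ * c₀) + g (-1 * (u⁻¹ * c₀)) := by
      intro g
      rw [← sum_delta s hs hp K C hCK hx hc₀ g, ← sum_delta s hs hp K C hCK hx m1 g,
        ← sum_delta s hs hp K C hCK hx m2 g, Finset.mul_sum, ← Finset.sum_sub_distrib,
        ← Finset.sum_add_distrib]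
      apply Finset.sum_congr rfl
      intro c _
      rw [phi, if_neg hfix, e1, e2]
      ring
    constructor
    · have := key (fun _ => 1)
      simp only [one_mul] at this
      rw [this]
      ring
    · rw [key (fun c => (c : ZMod p))]
      push_cast
      rw [hu3]
      field_simp
      ring
  · have hz : ∀ c ∈ C, phi s a (act s c x) = 0 := by
      intro c hc
      have hcK := (hCK c).1 hc
      have n1 : act s (c : ZMod p) x ≠ a := fun h => hex ⟨c, hcK, h.symm⟩
      have n2 : act s (c : ZMod p) x ≠ act s 3⁻¹ a := by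
        intro h
        apply hex
        refine ⟨u * c, K.mul_mem hu hcK, ?_⟩
        have h4 : act s 3 (act s 3⁻¹ a) = a := by
          rw [act_act s hs hp, mul_inv_cancel₀ h3, act_one s hp]
        rw [← h, act_act s hs hp] at h4
        rw [Units.val_mul, hu3, h4]
      have n3 : act s (c : ZMod p) x ≠ act s (-3⁻¹) a := by
        intro h
        apply hex
        refine ⟨-1 * (u * c), K.mul_mem hK1 (K.mul_mem hu hcK), ?_⟩
        have h4 : act s (-3) (act s (-3⁻¹) a) = a := by
          rw [act_act s hs hp, neg_mul_neg, mul_inv_cancel₀ h3, act_one s hp]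
        rw [← h, act_act s hs hp] at h4
        rw [Units.val_mul, Units.val_mul, hu3]
        have h5 : ((-1 : (ZMod p)ˣ) : ZMod p) * (3 * (c : ZMod p)) = -3 * c := by simp
        rw [h5, h4]
      unfold phi
      rw [if_neg n1, if_neg n2, if_neg n3]
      simp
    constructor
    · exact Finset.sum_eq_zero hz
    · exact Finset.sum_eq_zero (fun c hc => by rw [hz c hc, mul_zero])

include hs hp in
lemma phi_self (a : V) : phi s a a = 1 := by
  have h3 := three_ne (p := p) hp
  have h2 := two_ne (p := p) hp
  have h4 := four_ne (p := p) hp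
  unfold phi
  by_cases ha : s a = a
  · rw [if_pos ha, if_pos rfl]
  · have n1 : a ≠ act s 3⁻¹ a := by
      intro h
      have h5 : act s 1 a = act s 3⁻¹ a := by rw [act_one s hp]; exact h
      have h6 := act_inj s hs hp ha h5
      have h7 : (3 : ZMod p) = 1 := by
        have := congrArg (fun z => 3 * z) h6
        simp only [mul_one, mul_inv_cancel₀ h3] at this
        exact this
      apply h2
      linear_combination h7
    have n2 : a ≠ act s (-3⁻¹) a := by
      intro h
      have h5 : act s 1 a = act s (-3⁻¹) a := by rw [act_one s hp]; exact h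
      have h6 := act_inj s hs hp ha h5
      have h7 : (3 : ZMod p) = -1 := by
        have := congrArg (fun z => 3 * z) h6
        simp only [mul_one, mul_neg, mul_inv_cancel₀ h3] at this
        exact this
      apply h4
      linear_combination h7
    rw [if_neg ha, if_pos rfl, if_neg n1, if_neg n2]
    ring

include hs hp in
lemma phi_ne {a x : V} (h : phi s a x ≠ 0) :
    a = x ∨ a = act s 3 x ∨ a = s (act s 3 x) := by
  have h3 := three_ne (p := p) hp
  unfold phi at h
  by_cases hxa : x = a
  · exact Or.inl hxa.symm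
  by_cases ha : s a = a
  · rw [if_pos ha, if_neg hxa] at h
    exact absurd rfl h
  rw [if_neg ha, if_neg hxa] at h
  by_cases h1 : x = act s 3⁻¹ a
  · right; left
    rw [h1, act_act s hs hp, mul_inv_cancel₀ h3, act_one s hp]
  by_cases h2 : x = act s (-3⁻¹) a
  · right; right
    rw [h2, act_act s hs hp, s_act s hs]
    have : -(3 * -3⁻¹ : ZMod p) = 1 := by
      rw [mul_neg, neg_neg, mul_inv_cancel₀ h3]
    rw [this, act_one s hp]
  rw [if_neg h1, if_neg h2] at h
  simp at h

/-! ### The exceptional set -/

/-- the points not fixed by `s` -/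
def moved : Finset V := univ.filter (fun x => s x ≠ x)

include hs hp hCK in
/-- There is a set of `2 |moved| / |C|` points such that a function in `space s C` is determined by
its values at the other points. -/
lemma exists_R (hK1 : (-1 : (ZMod p)ˣ) ∈ K) : ∃ R : Finset V,
    (∀ f ∈ space s C, (∀ x, x ∉ R → f x = 0) → f = 0) ∧
    C.card * R.card = 2 * (moved s).card := by
  classical
  have h2 := two_ne (p := p) hp
  have hKC : ∀ c, c ∈ K → c ∈ C := fun c h => (hCK c).2 h
  have hCK' : ∀ c, c ∈ C → c ∈ K := fun c h => (hCK c).1 h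
  -- the orbit relation
  let r : Setoid V :=
    { r := fun x y => ∃ c ∈ K, y = act s ((c : (ZMod p)ˣ) : ZMod p) x
      iseqv :=
        { refl := fun x => ⟨1, K.one_mem, by rw [Units.val_one, act_one s hp]⟩
          symm := by
            rintro x y ⟨c, hc, rfl⟩
            refine ⟨c⁻¹, K.inv_mem hc, ?_⟩
            rw [act_act s hs hp, ← Units.val_mul, inv_mul_cancel, Units.val_one, act_one s hp]
          trans := by
            rintro x y z ⟨c, hc, rfl⟩ ⟨d, hd, rfl⟩
            exact ⟨d * c, K.mul_mem hd hc, by rw [act_act s hs hp, Units.val_mul]⟩ } }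
  let rep : V → V := fun x => (Quotient.mk r x).out
  have hrep1 : ∀ x, ∃ c ∈ K, rep x = act s ((c : (ZMod p)ˣ) : ZMod p) x := by
    intro x
    have h : r (rep x) x := Quotient.exact (Quotient.out_eq _)
    exact r.symm h
  have hrep2 : ∀ c ∈ K, ∀ x, rep (act s ((c : (ZMod p)ˣ) : ZMod p) x) = rep x := by
    intro c hc x
    have h : Quotient.mk r (act s ((c : (ZMod p)ˣ) : ZMod p) x) = Quotient.mk r x :=
      Quotient.sound (r.symm ⟨c, hc, rfl⟩)
    simp only [rep, h]
  set R' : Finset V := univ.filter (fun x => s x ≠ x ∧ rep x = x) with hR'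
  have hs1 : ∀ x, s x = act s (((-1 : (ZMod p)ˣ)) : ZMod p) x := by
    intro x
    rw [Units.val_neg, Units.val_one, act_neg_one s hp]
  have hsinj : Function.Injective s := by
    intro x y h
    rw [← hs x, ← hs y, h]
  refine ⟨R' ∪ R'.image s, ?_, ?_⟩
  · intro f hf hoff
    -- the values at `r ∈ R'` and `s r`
    have key : ∀ z, s z ≠ z → rep z = z → f z = 0 ∧ f (s z) = 0 := by
      intro z hz hrz
      obtain ⟨g1, g2⟩ := hf z hz
      have hother : ∀ c ∈ C, c ≠ 1 → c ≠ -1 → f (act s (c : ZMod p) z) = 0 := by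
        intro c hc hc1 hc2
        apply hoff
        rw [Finset.mem_union, Finset.mem_image, not_or]
        have hrc := hrep2 c (hCK' c hc) z
        constructor
        · intro h
          rw [hR', Finset.mem_filter] at h
          rw [h.2.2, hrz] at hrc
          apply hc1
          have h5 : act s (c : ZMod p) z = act s 1 z := by rw [hrc, act_one s hp]
          exact Units.ext (act_inj s hs hp hz h5)
        · rintro ⟨y, hy, hyc⟩
          rw [hR', Finset.mem_filter] at hy
          have h6 : rep (s y) = rep y := by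
            rw [hs1 y]
            exact hrep2 (-1) hK1 y
          rw [hyc, hrc, hrz, hy.2.2] at h6
          rw [← h6] at hyc
          apply hc2
          have h5 : act s (c : ZMod p) z = act s (-1) z := by
            rw [← hyc, act_neg_one s hp]
          have h7 := act_inj s hs hp hz h5
          apply Units.ext
          rw [h7, Units.val_neg, Units.val_one]
      have hne : (1 : (ZMod p)ˣ) ≠ -1 := by
        intro h
        have h5 := congrArg (fun u : (ZMod p)ˣ => (u : ZMod p)) h
        simp only [Units.val_one, Units.val_neg] at h5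
        apply h2
        linear_combination h5
      have hsum : ∀ g : (ZMod p)ˣ → ZMod p, ∑ c ∈ C, g c * f (act s (c : ZMod p) z) =
          g 1 * f z + g (-1) * f (s z) := by
        intro g
        rw [← Finset.add_sum_erase C _ (hKC 1 K.one_mem),
          ← Finset.add_sum_erase (C.erase 1) _ (Finset.mem_erase.2 ⟨hne.symm, hKC (-1) hK1⟩),
          Finset.sum_eq_zero (s := (C.erase 1).erase (-1)), Units.val_one, act_one s hp,
          ← hs1 z, add_zero]
        intro c hc
        rw [Finset.mem_erase, Finset.mem_erase] at hc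
        rw [hother c hc.2.2 hc.2.1 hc.1, mul_zero]
      have e1 := hsum (fun _ => 1)
      simp only [one_mul] at e1
      rw [g1] at e1
      have e2 := hsum (fun c => (c : ZMod p))
      rw [g2] at e2
      simp only [Units.val_one, Units.val_neg, one_mul, neg_mul] at e2
      have e3 : 2 * f z = 0 := by linear_combination -e1 - e2
      have e4 : f z = 0 := (mul_eq_zero.1 e3).resolve_left h2
      refine ⟨e4, ?_⟩
      rw [e4] at e1
      simpa using e1.symm
    funext x
    by_cases hx : x ∈ R' ∪ R'.image s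
    · rw [Finset.mem_union, Finset.mem_image] at hx
      rcases hx with hx | ⟨y, hy, rfl⟩
      · rw [hR', Finset.mem_filter] at hx
        exact (key x hx.2.1 hx.2.2).1
      · rw [hR', Finset.mem_filter] at hy
        exact (key y hy.2.1 hy.2.2).2
    · exact hoff x hx
  · -- counting
    have hdisj : Disjoint R' (R'.image s) := by
      rw [Finset.disjoint_left]
      intro x hx hx2
      rw [Finset.mem_image] at hx2
      obtain ⟨y, hy, rfl⟩ := hx2
      rw [hR', Finset.mem_filter] at hx hy
      have h6 : rep (s y) = rep y := by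
        rw [hs1 y]
        exact hrep2 (-1) hK1 y
      rw [hx.2.2, hy.2.2] at h6
      exact hy.2.1 h6
    have hcard : C.card * R'.card = (moved s).card := by
      rw [← Finset.card_product]
      apply Finset.card_bij (fun q _ => act s (q.1 : ZMod p) q.2)
      · rintro ⟨c, z⟩ hq
        rw [Finset.mem_product, hR', Finset.mem_filter] at hq
        rw [moved, Finset.mem_filter]
        exact ⟨Finset.mem_univ _, act_fix s hs hp hq.2.2.1 c.ne_zero⟩
      · rintro ⟨c, z⟩ hq ⟨c', z'⟩ hq' h
        rw [Finset.mem_product, hR', Finset.mem_filter] at hq hq'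
        simp only at h hq hq'
        have e1 := hrep2 c (hCK' c hq.1) z
        have e2 := hrep2 c' (hCK' c' hq'.1) z'
        rw [h, e2, hq.2.2.2, hq'.2.2.2] at e1
        subst e1
        have e3 := act_inj s hs hp hq.2.2.1 h
        rw [Units.ext e3]
      · intro x hx
        rw [moved, Finset.mem_filter] at hx
        obtain ⟨c, hc, hcx⟩ := hrep1 x
        refine ⟨(c⁻¹, rep x), ?_, ?_⟩
        · rw [Finset.mem_product, hR', Finset.mem_filter]
          refine ⟨hKC _ (K.inv_mem hc), Finset.mem_univ _, ?_, ?_⟩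
          · simp only
            rw [hcx]
            exact act_fix s hs hp hx.2 c.ne_zero
          · simp only
            conv_lhs => rw [hcx]
            exact hrep2 c hc x
        · simp only
          rw [hcx, act_act s hs hp, ← Units.val_mul, inv_mul_cancel, Units.val_one, act_one s hp]
    rw [Finset.card_union_of_disjoint hdisj, Finset.card_image_of_injective _ hsinj, ← hcard]
    ring

include hs hp in
/-- at most `|V| / p` points are fixed -/
lemma moved_card (hne : ∃ x, s x ≠ x) :
    (p - 1) * Fintype.card V ≤ p * (moved s).card := by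
  classical
  obtain ⟨x₀, hx₀⟩ := hne
  have h2 := two_ne (p := p) hp
  set u : V := x₀ - s x₀ with hu
  have hu0 : u ≠ 0 := by
    intro h
    exact hx₀ (sub_eq_zero.1 h).symm
  have hsu : s u = -u := by
    rw [hu, map_sub, hs]
    abel
  set Fx : Finset V := univ.filter (fun x => s x = x) with hFx
  have h1 : p * Fx.card ≤ Fintype.card V := by
    have h3 : ((univ : Finset (ZMod p)) ×ˢ Fx).card ≤ (univ : Finset V).card := by
      apply Finset.card_le_card_of_injOn (fun q => q.2 + q.1 • u)
      · intro q _
        exact Finset.mem_coe.2 (Finset.mem_univ _)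
      · rintro ⟨c, w⟩ hq ⟨c', w'⟩ hq' h
        rw [Finset.mem_coe, Finset.mem_product, hFx, Finset.mem_filter] at hq hq'
        simp only at h hq hq'
        have e1 := congrArg s h
        rw [map_add, map_add, map_smul, map_smul, hsu, hq.2.2, hq'.2.2] at e1
        have e2 : (2 * (c - c')) • u = 0 := by
          have e3 : (2 * (c - c')) • u = (w + c • u) - (w' + c' • u) -
              ((w + c • -u) - (w' + c' • -u)) := by module
          rw [e3, h, e1]
          simp
        rcases smul_eq_zero.1 e2 with e3 | e3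
        · have e4 := sub_eq_zero.1 ((mul_eq_zero.1 e3).resolve_left h2)
          subst e4
          rw [add_left_inj] at h
          rw [h]
        · exact absurd e3 hu0
    rw [Finset.card_product, Finset.card_univ, ZMod.card, Finset.card_univ] at h3
    exact h3
  have h3 : Fx.card + (moved s).card = Fintype.card V := by
    rw [hFx, moved, Finset.card_filter_add_card_filter_not, Finset.card_univ]
  have hp1 : 1 ≤ p := hpf.out.one_lt.le
  obtain ⟨P, rfl⟩ : ∃ P, p = P + 1 := ⟨p - 1, by omega⟩
  rw [Nat.add_sub_cancel, ← h3]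
  rw [← h3] at h1
  nlinarith

end

end Pool.Agent.TH197.Inv
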