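import Mathlib

/-!
# A rank bound for independent sets in products

Functions on a product whose restrictions to all coordinate lines lie in spaces `K i` are
determined by their values off the sets `R i` if this is so for the functions in `K i`.
-/

set_option autoImplicit false
set_option linter.unusedSectionVars false

namespace Pool.Agent.TH197.Inv

open Finset

variable {ι : Type} [Fintype ι] [DecidableEq ι] {L : ι → Type} [∀ i, Fintype (L i)]
  [∀ i, DecidableEq (L i)] {F : Type} [Field F]

lemma vanish (R : ∀ i, Finset (L i)) (K : ∀ i, Submodule F (L i → F))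
    (hK : ∀ i, ∀ f ∈ K i, (∀ x, x ∉ R i → f x = 0) → f = 0)
    (f : (∀ i, L i) → F) (hf : ∀ i x, (fun y => f (Function.update x i y)) ∈ K i)
    (h0 : ∀ x, (∀ i, x i ∉ R i) → f x = 0) : f = 0 := by
  have key : ∀ S : Finset ι, ∀ x, (∀ j, j ∉ S → x j ∉ R j) → f x = 0 := by
    intro S
    induction S using Finset.induction_on with
    | empty => exact fun x hx => h0 x (fun i => hx i (Finset.notMem_empty i))
    | insert i S hi ih =>
      intro x hx
      have h1 : (fun y => f (Function.update x i y)) = 0 := by
        apply hK i _ (hf i x)
        intro y hy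
        apply ih
        intro j hj
        by_cases hji : j = i
        · subst hji
          rw [Function.update_self]
          exact hy
        · rw [Function.update_of_ne hji]
          exact hx j (by rw [Finset.mem_insert, not_or]; exact ⟨hji, hj⟩)
      have h2 := congrFun h1 (x i)
      simpa [Function.update_eq_self] using h2
  funext x
  exact key univ x (fun j hj => absurd (Finset.mem_univ j) hj)

/-- the rank bound -/
theorem card_le (R : ∀ i, Finset (L i)) (K : ∀ i, Submodule F (L i → F))
    (hK : ∀ i, ∀ f ∈ K i, (∀ x, x ∉ R i → f x = 0) → f = 0) (A : Finset (∀ i, L i))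
    (φ : ∀ i, L i → (L i → F)) (hφ : ∀ i a, φ i a ∈ K i)
    (h1 : ∀ a ∈ A, ∏ i, φ i (a i) (a i) ≠ 0)
    (h2 : ∀ a ∈ A, ∀ x ∈ A, a ≠ x → ∏ i, φ i (a i) (x i) = 0) :
    A.card ≤ ∏ i, (Fintype.card (L i) - (R i).card) := by
  classical
  let v : A → ((∀ i, {y // y ∉ R i}) → F) := fun a x => ∏ i, φ i (a.1 i) (x i)
  have hli : LinearIndependent F v := by
    rw [Fintype.linearIndependent_iff]
    intro c hc b
    set f : (∀ i, L i) → F := fun x => ∑ a : A, c a * ∏ i, φ i (a.1 i) (x i) with hf
    have hf0 : f = 0 := by
      apply vanish R K hK
      · intro i x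
        have e1 : (fun y => f (Function.update x i y)) =
            ∑ a : A, (c a * ∏ j ∈ univ.erase i, φ j (a.1 j) (x j)) • φ i (a.1 i) := by
          funext y
          rw [hf, Finset.sum_apply]
          apply Finset.sum_congr rfl
          intro a _
          rw [Pi.smul_apply, smul_eq_mul, ← Finset.mul_prod_erase _ _ (Finset.mem_univ i),
            Function.update_self]
          have e2 : ∏ j ∈ univ.erase i, φ j (a.1 j) (Function.update x i y j) =
              ∏ j ∈ univ.erase i, φ j (a.1 j) (x j) := by
            apply Finset.prod_congr rfl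
            intro j hj
            rw [Function.update_of_ne (Finset.ne_of_mem_erase hj)]
          rw [e2]
          ring
        rw [e1]
        exact Submodule.sum_mem _ (fun a _ => Submodule.smul_mem _ _ (hφ i _))
      · intro x hx
        have e1 := congrFun hc (fun i => ⟨x i, hx i⟩)
        rw [Finset.sum_apply] at e1
        simpa [v, hf] using e1
    have e1 := congrFun hf0 b.1
    simp only [hf, Pi.zero_apply] at e1
    rw [Finset.sum_eq_single b] at e1
    · exact (mul_eq_zero.1 e1).resolve_right (h1 b.1 b.2)
    · intro a _ hab
      rw [h2 a.1 a.2 b.1 b.2 (fun h => hab (Subtype.ext h)), mul_zero]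
    · intro h; exact absurd (Finset.mem_univ _) h
  have h3 := hli.fintype_card_le_finrank
  rw [Module.finrank_fintype_fun_eq_card, Fintype.card_pi, Fintype.card_coe] at h3
  refine h3.trans (le_of_eq ?_)
  apply Finset.prod_congr rfl
  intro i _
  rw [Fintype.card_subtype_compl, Fintype.card_coe]

end Pool.Agent.TH197.Inv
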